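import Pool.Agent.ZFM.SpaceX5

/-! # A P-space whose Hewitt extension is not a P-space, in a model of `ZF` -/

namespace Pool.Agent.Results.MP_a61393_lc.HewittNotPSpace

open Pool.Agent.ZFM

/-- There is a (countable, well-founded) model `M` of `ZF` and in it a Tychonoff space `(E, TE)` such
that the discrete real line `(ℝ, D)` is `E`-compact, and an `E`-completely regular P-space `(X, T)`,
such that its Hewitt `E`-compact extension `(V, TV)` is not a P-space. -/
theorem result : ∃ (M : Type) (_ : Membership M M) (ℛ : RealLine M),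
    IsZF M ∧ Countable M ∧ WellFounded (fun a b : M => a ∈ b) ∧
    ∃ E TE D X T V TV : M, ℛ.Tychonoff E TE ∧ IsDiscreteTop ℛ.R D ∧ ECompact E TE ℛ.R D ∧
      IsTop X T ∧ ECompletelyRegular E TE X T ∧ IsPSpace X T ∧
      IsHewitt E TE X T V TV ∧ ¬ IsPSpace V TV := by
  obtain ⟨C⟩ := exists_cohenModel RQ
  obtain ⟨D, hD⟩ := C.zf.powerset C.RN
  have hD' : IsDiscreteTop C.RN D := hD
  have hDtop := CohenModel.isTop_discrete C.zf hD'
  have hle : IsSub C.topR D := fun U hU => (hD U).2 ((C.mem_topR U).1 hU).1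
  obtain ⟨V, TV, hV⟩ := exists_hewitt C.zf C.RN D C.X (C.TX C.X)
  refine ⟨C.N, C.mem, C.realLine, C.zf, C.countable, C.wf, C.RN, D, D, C.X, C.TX C.X, V, TV,
    C.tychonoff_discrete hD', hD', CohenModel.eCompact_self C.zf hDtop, C.isTop_TX C.X, ?_,
    C.isPSpace_X, hV, C.hewitt_not_pSpace hDtop hle hV⟩
  refine ⟨C.A, ⟨C.a (0, 0), (C.mem_A _).2 ⟨_, rfl⟩⟩, ?_⟩
  refine C.subspaceOfPower_TX C.zero_mem C.one_mem C.real_zero_ne_one ?_ (fun _ h => h)
  intro r hr r' hr' hne
  obtain ⟨U, hU, h1, h2⟩ := C.t1_real hr hr' hne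
  exact ⟨U, hle U hU, h1, h2⟩

end Pool.Agent.Results.MP_a61393_lc.HewittNotPSpace
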